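import Mathlib

/-!
Definitions for special Hadamard operators on `ℝⁿ` (Lebesgue measure, complex-valued functions).
-/

namespace Pool.Agent.MP_977787_an

open MeasureTheory Filter Topology

/-- The bounded operator `T` on `L²` is also bounded `L¹ → L^∞` with norm at most `c`: a bounded
linear operator `L¹ → L^∞` of norm at most `c` agrees with `T` on `L¹ ∩ L²`. -/
structure BoundedOneTop {X : Type*} [MeasurableSpace X] (μ : Measure X)
    (T : Lp ℂ 2 μ →L[ℂ] Lp ℂ 2 μ) (c : ℝ) : Prop where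
  out : ∃ T₁ : Lp ℂ 1 μ →L[ℂ] Lp ℂ ⊤ μ, ‖T₁‖ ≤ c ∧
    ∀ (f : Lp ℂ 1 μ) (g : Lp ℂ 2 μ), (f : X → ℂ) =ᵐ[μ] (g : X → ℂ) →
      (T₁ f : X → ℂ) =ᵐ[μ] (T g : X → ℂ)

/-- A special `k`-Hadamard operator on `(X, μ)`: a bounded invertible operator `A` on `L²` which
is bounded `L¹ → L^∞` with norm at most one, satisfies `A* = k A⁻¹`, and whose adjoint is bounded
`L¹ → L^∞`. -/
structure IsSpecialHadamard {X : Type*} [MeasurableSpace X] (μ : Measure X) (k : ℝ)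
    (A : Lp ℂ 2 μ ≃L[ℂ] Lp ℂ 2 μ) : Prop where
  bounded_one_top : BoundedOneTop μ A.toContinuousLinearMap 1
  adjoint_eq : ContinuousLinearMap.adjoint A.toContinuousLinearMap =
    (k : ℂ) • A.symm.toContinuousLinearMap
  adjoint_bounded_one_top :
    ∃ c, BoundedOneTop μ (ContinuousLinearMap.adjoint A.toContinuousLinearMap) c

/-- `C` is admissible for `(A, p)`: `C > 0` and `‖f‖_p ‖Af‖_p / (‖f‖_2 ‖Af‖_2) ≥ C` for all
nonzero `f ∈ L²` with `f, Af ∈ L^p`. -/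
structure Admissible {X : Type*} [MeasurableSpace X] (μ : Measure X)
    (A : Lp ℂ 2 μ ≃L[ℂ] Lp ℂ 2 μ) (p C : ℝ) : Prop where
  pos : 0 < C
  le_ratio : ∀ f : Lp ℂ 2 μ, f ≠ 0 →
    MemLp (f : X → ℂ) (ENNReal.ofReal p) μ → MemLp (A f : X → ℂ) (ENNReal.ofReal p) μ →
      C ≤ ((eLpNorm (f : X → ℂ) (ENNReal.ofReal p) μ).toReal *
            (eLpNorm (A f : X → ℂ) (ENNReal.ofReal p) μ).toReal) /
          ((eLpNorm (f : X → ℂ) 2 μ).toReal * (eLpNorm (A f : X → ℂ) 2 μ).toReal)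

/-- The property asked for in Q1: on some `(2 - σ, 2]` there is a choice `p ↦ C p` of admissible
constants with `C 2 = 1`, `C p → 1` as `p ↑ 2`, differentiable and strictly decreasing on
`(2 - σ, 2)`. -/
structure HasRegularConstants {X : Type*} [MeasurableSpace X] (μ : Measure X)
    (A : Lp ℂ 2 μ ≃L[ℂ] Lp ℂ 2 μ) : Prop where
  out : ∃ σ : ℝ, 0 < σ ∧ σ ≤ 1 ∧ ∃ C : ℝ → ℝ,
    (∀ p ∈ Set.Ioc (2 - σ) 2, Admissible μ A p (C p)) ∧ C 2 = 1 ∧
    Tendsto C (𝓝[<] 2) (𝓝 1) ∧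
    DifferentiableOn ℝ C (Set.Ioo (2 - σ) 2) ∧ StrictAntiOn C (Set.Ioo (2 - σ) 2)

/-- Every special `k`-Hadamard operator on `(X, μ)` has the property asked for in Q1. -/
structure AllHaveRegularConstants {X : Type*} [MeasurableSpace X] (μ : Measure X) (k : ℝ) :
    Prop where
  out : ∀ A : Lp ℂ 2 μ ≃L[ℂ] Lp ℂ 2 μ, IsSpecialHadamard μ k A → HasRegularConstants μ A

end Pool.Agent.MP_977787_an
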